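import Pool.Agent.H89.SP.Defs

set_option autoImplicit false

namespace Pool.Agent.H89.SP.T.C4

open Polynomial Matrix

theorem main : S_C4 := by
  classical
  intro F _ s hs
  by_cases h : ∃ a, 4 ≤ s.count a
  · left
    obtain ⟨a, ha⟩ := h
    exact ⟨a, Multiset.le_count_iff_replicate_le.1 ha⟩
  · right
    push Not at h
    have hcard : Multiset.card s ≤ 3 * s.toFinset.card := by
      rw [← Multiset.toFinset_sum_count_eq]
      calc ∑ a ∈ s.toFinset, s.count a ≤ ∑ a ∈ s.toFinset, 3 :=
            Finset.sum_le_sum fun a _ => by have := h a; omega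
        _ = 3 * s.toFinset.card := by simp [mul_comm]
    obtain ⟨T, hT⟩ : ∃ T, T = s.toFinset.erase 0 := ⟨_, rfl⟩
    have hTc : 11 ≤ T.card := by
      have := Finset.pred_card_le_card_erase (s := s.toFinset) (a := (0 : F))
      rw [← hT] at this
      omega
    have hT0 : ∀ t ∈ T, t ≠ 0 := fun t ht => Finset.ne_of_mem_erase (hT ▸ ht)
    have pick : ∀ B : Finset F, B.card ≤ 10 → ∃ w ∈ T, w ∉ B := by
      intro B hB
      by_contra hcon
      push Not at hcon
      have := Finset.card_le_card (show T ⊆ B from hcon)
      omega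
    obtain ⟨x, hx, -⟩ := pick ∅ (by simp)
    obtain ⟨y, hy, hyB⟩ := pick {x, -x} (Finset.card_le_two.trans (by norm_num))
    obtain ⟨z, hz, hzB⟩ := pick {x, -x, y, -y} (Finset.card_le_four.trans (by norm_num))
    simp only [Finset.mem_insert, Finset.mem_singleton, not_or] at hyB hzB
    have hx0 := hT0 x hx
    have hy0 := hT0 y hy
    have hz0 := hT0 z hz
    set q : F[X] := C (x + y + z) * X ^ 2 + C ((x + y + z) ^ 2) * X
      + C ((x + y + z) * (x * y + x * z + y * z) - x * y * z) with hq
    have hq0 : q ≠ 0 := by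
      intro h0
      have h1 : q.coeff 0 = 0 := by rw [h0, coeff_zero]
      have h2 : q.coeff 2 = 0 := by rw [h0, coeff_zero]
      have h3 : q.coeff 2 = x + y + z := by
        rw [hq, coeff_add, coeff_add, coeff_C_mul, coeff_C_mul, coeff_X_pow, coeff_X, coeff_C]
        norm_num
      have h4 : q.coeff 0 = (x + y + z) * (x * y + x * z + y * z) - x * y * z := by
        simp [hq]
      rw [h3] at h2
      rw [h4, h2, zero_mul, zero_sub, neg_eq_zero] at h1
      simp [hx0, hy0, hz0] at h1
    have hqr : q.roots.toFinset.card ≤ 2 := by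
      calc q.roots.toFinset.card ≤ Multiset.card q.roots := Multiset.toFinset_card_le _
        _ ≤ q.natDegree := q.card_roots'
        _ ≤ 2 := by rw [hq]; compute_degree
    obtain ⟨w, hwT, hwB⟩ := pick (({x, -x, y, -y} ∪ {z, -z, -(x + y + z), -(x * y * z / (x * y + x * z + y * z))}) ∪
      q.roots.toFinset) (by
        refine (Finset.card_union_le _ _).trans ?_
        have h1 := Finset.card_union_le ({x, -x, y, -y} : Finset F)
          {z, -z, -(x + y + z), -(x * y * z / (x * y + x * z + y * z))}
        have h2 : ({x, -x, y, -y} : Finset F).card ≤ 4 := Finset.card_le_four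
        have h3 : ({z, -z, -(x + y + z), -(x * y * z / (x * y + x * z + y * z))} : Finset F).card ≤ 4 :=
          Finset.card_le_four
        omega)
    simp only [Finset.mem_union, Finset.mem_insert, Finset.mem_singleton,
      Multiset.mem_toFinset, mem_roots hq0, not_or] at hwB
    obtain ⟨⟨⟨hwx, hwx', hwy, hwy'⟩, hwz, hwz', hws, hwd⟩, hwq⟩ := hwB
    refine ⟨x, y, z, w, ⟨?_, ?_, ?_, ?_, ?_, ?_, ?_, ?_, ?_⟩, ?_⟩
    · intro h0; exact hyB.2 (eq_neg_of_add_eq_zero_right h0)
    · intro h0; exact hzB.2.1 (eq_neg_of_add_eq_zero_right h0)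
    · intro h0; exact hwx' (eq_neg_of_add_eq_zero_right h0)
    · intro h0; exact hzB.2.2.2 (eq_neg_of_add_eq_zero_right h0)
    · intro h0; exact hwy' (eq_neg_of_add_eq_zero_right h0)
    · intro h0; exact hwz' (eq_neg_of_add_eq_zero_right h0)
    · intro h0; exact hws (eq_neg_of_add_eq_zero_right h0)
    · intro h0
      by_cases hs2 : x * y + x * z + y * z = 0
      · have : x * y * z = 0 := by linear_combination h0 - w * hs2
        simp [hx0, hy0, hz0] at this
      · apply hwd
        rw [eq_neg_iff_add_eq_zero, ← mul_left_inj' hs2, add_mul, div_mul_cancel₀ _ hs2, zero_mul]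
        linear_combination h0
    · intro h0
      apply hwq
      rw [IsRoot, hq]
      simp only [eval_add, eval_mul, eval_C, eval_pow, eval_X]
      linear_combination h0
    · have hsub : ({x, y, z, w} : Multiset F) = ({x, y, z, w} : Finset F).val := by
        rw [Finset.insert_val_of_notMem, Finset.insert_val_of_notMem,
          Finset.insert_val_of_notMem, Finset.singleton_val]
        · rfl
        · simpa using Ne.symm hwz
        · simp [Ne.symm hzB.2.2.1, Ne.symm hwy]
        · simp [Ne.symm hyB.1, Ne.symm hzB.1, Ne.symm hwx]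
      rw [hsub, Finset.val_le_iff_val_subset]
      intro t ht
      have ht' : t ∈ ({x, y, z, w} : Finset F) := ht
      have hTs : ∀ t ∈ T, t ∈ s := fun t ht => by
        rw [hT] at ht
        simpa using Finset.mem_of_mem_erase ht
      simp only [Finset.mem_insert, Finset.mem_singleton] at ht'
      rcases ht' with rfl | rfl | rfl | rfl
      · exact hTs _ hx
      · exact hTs _ hy
      · exact hTs _ hz
      · exact hTs _ hwT

end Pool.Agent.H89.SP.T.C4
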