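import Pool.Agent.H89.SP.Defs

/-! # SP-C6: the choice of six eigenvalues -/

set_option autoImplicit false

namespace Pool.Agent.H89.SP.T.C6

open Polynomial Matrix

/-- the roots of a nonzero quadratic polynomial -/
theorem quad_roots {F : Type} [Field F] (a b c : F) (h : c ≠ 0 ∨ b ≠ 0 ∨ a ≠ 0) :
    ∃ R : Finset F, R.card ≤ 2 ∧ ∀ w, a * w ^ 2 + b * w + c = 0 → w ∈ R := by
  classical
  have hp : (C a * X ^ 2 + C b * X + C c : F[X]) ≠ 0 := by
    intro h0
    have h1 := congrArg (fun p => coeff p 0) h0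
    have h2 := congrArg (fun p => coeff p 1) h0
    have h3 := congrArg (fun p => coeff p 2) h0
    simp [coeff_X, coeff_C] at h1 h2 h3
    rcases h with h | h | h
    · exact h h1
    · exact h h2
    · exact h h3
  refine ⟨(C a * X ^ 2 + C b * X + C c : F[X]).roots.toFinset, ?_, fun w hw => ?_⟩
  · exact (Multiset.toFinset_card_le _).trans ((card_roots' _).trans natDegree_quadratic_le)
  · rw [Multiset.mem_toFinset, mem_roots hp]
    simpa [IsRoot] using hw

/-- choice of an element of `T` -/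
theorem choose {F : Type} [DecidableEq F] (T B : Finset F) (h : B.card < T.card) :
    ∃ w ∈ T, w ∉ B := Finset.exists_mem_notMem_of_card_lt_card h

theorem main : S_C6 := by
  intro F _ s hs
  classical
  by_cases h : ∃ a, 6 ≤ s.count a
  · left
    obtain ⟨a, ha⟩ := h
    exact ⟨a, Multiset.le_count_iff_replicate_le.1 ha⟩
  right
  push Not at h
  by_cases h2 : (2 : F) = 0
  · exact ⟨0, Multiset.zero_le _, fun h' => absurd h2 h'⟩
  -- the different values
  have hcard : 18 ≤ s.toFinset.card := by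
    have h1 : Multiset.card s = ∑ a ∈ s.toFinset, s.count a := (Multiset.toFinset_sum_count_eq s).symm
    have h3 : ∑ a ∈ s.toFinset, s.count a ≤ ∑ a ∈ s.toFinset, 5 :=
      Finset.sum_le_sum fun a _ => by have := h a; omega
    rw [Finset.sum_const, smul_eq_mul] at h3
    omega
  obtain ⟨T, hT⟩ : ∃ T : Finset F, T = s.toFinset.erase 0 := ⟨_, rfl⟩
  have hTc : 17 ≤ T.card := by
    have := Finset.pred_card_le_card_erase (s := s.toFinset) (a := (0 : F))
    rw [hT]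
    omega
  have hT0 : ∀ a ∈ T, a ≠ 0 := fun a ha => by rw [hT] at ha; exact Finset.ne_of_mem_erase ha
  have hTs : ∀ a ∈ T, a ∈ s := fun a ha => by
    rw [hT] at ha; exact Multiset.mem_toFinset.1 (Finset.mem_of_mem_erase ha)
  -- the first three
  obtain ⟨x, hxT, -⟩ := choose T ∅ (by rw [Finset.card_empty]; omega)
  obtain ⟨y, hyT, hy⟩ := choose T {x, -x} (by
    have := Finset.card_le_two (a := x) (b := -x); omega)
  obtain ⟨z, hzT, hz⟩ := choose T {x, -x, y, -y} (by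
    have := Finset.card_le_four (a := x) (b := -x) (c := y) (d := -y); omega)
  obtain ⟨g2, hg2⟩ : ∃ g, g = -(x + y + z) := ⟨_, rfl⟩
  obtain ⟨g1, hg1⟩ : ∃ g, g = x * y + x * z + y * z := ⟨_, rfl⟩
  obtain ⟨g0, hg0⟩ : ∃ g, g = -(x * y * z) := ⟨_, rfl⟩
  have hg00 : g0 ≠ 0 := by
    rw [hg0]
    exact neg_ne_zero.2 (mul_ne_zero (mul_ne_zero (hT0 x hxT) (hT0 y hyT)) (hT0 z hzT))
  have hP3 : ((X - C x) * (X - C y) * (X - C z) : F[X]) = X ^ 3 + C g2 * X ^ 2 + C g1 * X + C g0 := by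
    rw [hg2, hg1, hg0]
    simp only [map_add, map_mul, map_neg]
    ring
  -- the fourth
  obtain ⟨w1, hw1T, hw1⟩ := choose T ({x, -x, y, -y, z, -z} ∪ {g0 / g1}) (by
    have h1 := Finset.card_union_le ({x, -x, y, -y, z, -z} : Finset F) {g0 / g1}
    have h3 := Finset.card_le_six (a := x) (b := -x) (c := y) (d := -y) (e := z) (f := -z)
    rw [Finset.card_singleton] at h1
    omega)
  obtain ⟨f3, hf3⟩ : ∃ g, g = g2 - w1 := ⟨_, rfl⟩
  obtain ⟨f2, hf2⟩ : ∃ g, g = g1 - w1 * g2 := ⟨_, rfl⟩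
  obtain ⟨f1, hf1⟩ : ∃ g, g = g0 - w1 * g1 := ⟨_, rfl⟩
  obtain ⟨f0, hf0⟩ : ∃ g, g = -(w1 * g0) := ⟨_, rfl⟩
  have hP4 : ((X ^ 3 + C g2 * X ^ 2 + C g1 * X + C g0) * (X - C w1) : F[X]) =
      X ^ 4 + C f3 * X ^ 3 + C f2 * X ^ 2 + C f1 * X + C f0 := by
    rw [hf3, hf2, hf1, hf0]
    simp only [map_sub, map_mul, map_neg]
    ring
  have hf10 : f1 ≠ 0 := by
    intro h0
    apply hw1
    rw [Finset.mem_union]
    right
    rw [Finset.mem_singleton, eq_div_iff]
    · linear_combination hf1 - h0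
    · rintro rfl
      apply hg00
      linear_combination h0 - hf1
  have hf00 : f0 ≠ 0 := by
    rw [hf0]
    exact neg_ne_zero.2 (mul_ne_zero (hT0 w1 hw1T) hg00)
  -- the fifth
  obtain ⟨R2, hR2c, hR2⟩ := quad_roots (f2 ^ 2 - 4 * f0) (4 * f3 * f0 - 2 * f1 * f2) (f1 ^ 2)
    (Or.inl (pow_ne_zero 2 hf10))
  obtain ⟨w2, hw2T, hw2⟩ := choose T (({x, -x, y, -y, z, -z} ∪ {w1, -w1}) ∪ R2) (by
    have h1 := Finset.card_union_le ({x, -x, y, -y, z, -z} ∪ {w1, -w1} : Finset F) R2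
    have h3 := Finset.card_union_le ({x, -x, y, -y, z, -z} : Finset F) {w1, -w1}
    have h4 := Finset.card_le_six (a := x) (b := -x) (c := y) (d := -y) (e := z) (f := -z)
    have h5 := Finset.card_le_two (a := w1) (b := -w1)
    omega)
  obtain ⟨d4, hd4⟩ : ∃ g, g = f3 - w2 := ⟨_, rfl⟩
  obtain ⟨d3, hd3⟩ : ∃ g, g = f2 - w2 * f3 := ⟨_, rfl⟩
  obtain ⟨d2, hd2⟩ : ∃ g, g = f1 - w2 * f2 := ⟨_, rfl⟩
  obtain ⟨d1, hd1⟩ : ∃ g, g = f0 - w2 * f1 := ⟨_, rfl⟩
  obtain ⟨d0, hd0⟩ : ∃ g, g = -(w2 * f0) := ⟨_, rfl⟩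
  have hP5 : ((X ^ 4 + C f3 * X ^ 3 + C f2 * X ^ 2 + C f1 * X + C f0) * (X - C w2) : F[X]) =
      X ^ 5 + C d4 * X ^ 4 + C d3 * X ^ 3 + C d2 * X ^ 2 + C d1 * X + C d0 := by
    rw [hd4, hd3, hd2, hd1, hd0]
    simp only [map_sub, map_mul, map_neg]
    ring
  have hd00 : d0 ≠ 0 := by
    rw [hd0]
    exact neg_ne_zero.2 (mul_ne_zero (hT0 w2 hw2T) hf00)
  have hdisc : d2 ^ 2 - 4 * d4 * d0 ≠ 0 := by
    intro h0
    apply hw2
    rw [Finset.mem_union]
    right
    apply hR2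
    rw [hd2, hd4, hd0] at h0
    linear_combination h0
  -- the sixth
  obtain ⟨R3, hR3c, hR3⟩ := quad_roots d4 (-(d4 ^ 2)) (d4 * d3 - d2) (by
    by_cases h4 : d4 = 0
    · left
      intro h0
      apply hdisc
      rw [h4] at h0 ⊢
      have : d2 = 0 := by linear_combination -h0
      rw [this]; ring
    · exact Or.inr (Or.inr h4))
  obtain ⟨R4, hR4c, hR4⟩ := quad_roots (d3 ^ 2 - 4 * d1) (4 * d4 * d1 + 4 * d0 - 2 * d2 * d3)
    (d2 ^ 2 - 4 * d4 * d0) (Or.inl hdisc)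
  obtain ⟨w3, hw3T, hw3⟩ := choose T (((({x, -x, y, -y, z, -z} ∪ {w1, -w1, w2, -w2}) ∪
      {d4, d0 / d1}) ∪ R3) ∪ R4) (by
    have h1 := Finset.card_union_le ((({x, -x, y, -y, z, -z} ∪ {w1, -w1, w2, -w2}) ∪
      {d4, d0 / d1}) ∪ R3 : Finset F) R4
    have h1' := Finset.card_union_le (({x, -x, y, -y, z, -z} ∪ {w1, -w1, w2, -w2}) ∪
      {d4, d0 / d1} : Finset F) R3
    have h1'' := Finset.card_union_le ({x, -x, y, -y, z, -z} ∪ {w1, -w1, w2, -w2} : Finset F)
      {d4, d0 / d1}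
    have h3 := Finset.card_union_le ({x, -x, y, -y, z, -z} : Finset F) {w1, -w1, w2, -w2}
    have h4 := Finset.card_le_six (a := x) (b := -x) (c := y) (d := -y) (e := z) (f := -z)
    have h5 := Finset.card_le_four (a := w1) (b := -w1) (c := w2) (d := -w2)
    have h6 := Finset.card_le_two (a := d4) (b := d0 / d1)
    omega)
  simp only [Finset.mem_union, Finset.mem_insert, Finset.mem_singleton, not_or] at hy hz hw1 hw2 hw3
  obtain ⟨hyx, hyx'⟩ := hy
  obtain ⟨hzx, hzx', hzy, hzy'⟩ := hz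
  obtain ⟨⟨k1, k2, k3, k4, k5, k6⟩, -⟩ := hw1
  obtain ⟨⟨⟨l1, l2, l3, l4, l5, l6⟩, l7, l8⟩, -⟩ := hw2
  obtain ⟨⟨⟨⟨⟨m1, m2, m3, m4, m5, m6⟩, m7, m8, m9, m10⟩, m11, m12⟩, m13⟩, m14⟩ := hw3
  have hnn : ∀ a ∈ T, a ≠ -a := fun a ha h0 => by
    have : (2 : F) * a = 0 := by linear_combination h0
    rcases mul_eq_zero.1 this with h | h
    · exact h2 h
    · exact hT0 a ha h
  have hsw : ∀ a b : F, a ≠ -b → -a ≠ b := fun a b h h' => h (by rw [← h', neg_neg])
  refine ⟨{x, y, z, w1, w2, w3}, ?_, fun _ => ⟨by simp, ?_, ?_⟩⟩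
  · rw [Multiset.le_iff_subset]
    · intro a ha
      simp only [Multiset.insert_eq_cons, Multiset.mem_cons, Multiset.mem_singleton] at ha
      rcases ha with rfl | rfl | rfl | rfl | rfl | rfl <;> exact hTs _ (by assumption)
    · simp [Multiset.insert_eq_cons]
      grind
  · intro a ha ha'
    simp only [Multiset.insert_eq_cons, Multiset.mem_cons, Multiset.mem_singleton] at ha ha'
    have n1 := hnn x hxT
    have n2 := hnn y hyT
    have n3 := hnn z hzT
    have n4 := hnn w1 hw1T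
    have n5 := hnn w2 hw2T
    have n6 := hnn w3 hw3T
    grind
  · refine ⟨-(w3 * d0), d0 - w3 * d1, d1 - w3 * d2, d2 - w3 * d3, d3 - w3 * d4, d4 - w3, ?_, ?_, ?_,
      ?_, ?_⟩
    · simp only [Multiset.insert_eq_cons, Multiset.map_cons, Multiset.map_singleton,
        Multiset.prod_cons, Multiset.prod_singleton]
      have e : ((X - C x) * ((X - C y) * ((X - C z) * ((X - C w1) * ((X - C w2) * (X - C w3))))) :
          F[X]) = ((X - C x) * (X - C y) * (X - C z)) * (X - C w1) * (X - C w2) * (X - C w3) := by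
        ring
      rw [e, hP3, hP4, hP5]
      simp only [map_sub, map_mul, map_neg]
      ring
    · intro h0
      exact m11 (by linear_combination -h0)
    · intro h0
      by_cases h1 : d1 = 0
      · apply hd00
        rw [h1] at h0
        linear_combination h0
      · apply m12
        rw [eq_div_iff h1]
        linear_combination -h0
    · intro h0
      exact m13 (hR3 w3 (by linear_combination h0))
    · intro h0
      exact m14 (hR4 w3 (by linear_combination h0))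

end Pool.Agent.H89.SP.T.C6
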