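import Pool.Agent.H89.SP.Defs

set_option autoImplicit false

namespace Pool.Agent.H89.SP.T.DEC

theorem main : S_DEC := by
  intro F b c N Q hQ hN m
  induction m with
  | zero =>
    intro s hs
    refine ⟨Fin.elim0, s, ?_, fun i => i.elim0, by simpa using hs⟩
    simp
  | succ m ih =>
    intro s hs
    have h1 : N ≤ Multiset.card s := by
      rw [hs]
      have : b * (m + 1) + c = b * m + (b + c) := by ring
      omega
    obtain ⟨t, hts, htc, htQ⟩ := hQ s h1
    obtain ⟨s', rfl⟩ := Multiset.le_iff_exists_add.1 hts
    have h2 : Multiset.card s' = b * m + c := by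
      rw [Multiset.card_add, htc] at hs
      have : b * (m + 1) + c = b + (b * m + c) := by ring
      omega
    obtain ⟨f, r, hf, hfQ, hr⟩ := ih s' h2
    refine ⟨Fin.cons t f, r, ?_, ?_, hr⟩
    · rw [Fin.sum_univ_succ, Fin.cons_zero, hf, add_assoc]
      simp
    · intro i
      refine Fin.cases ⟨?_, ?_⟩ (fun j => ?_) i
      · simpa using htc
      · simpa using htQ
      · simpa using hfQ j

end Pool.Agent.H89.SP.T.DEC
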