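import Pool.Agent.H89.SP.Defs

set_option autoImplicit false

namespace Pool.Agent.H89.SP.T.E4

open Polynomial Matrix

variable {F : Type} [Field F]

/-- The four by four block with seven nonzero entries. -/
theorem four_block (a b u v : F) :
    (!![0, 1, 0, 0; u, 0, 1, 0; 0, 0, a, 1; v, 0, 0, b] : Matrix (Fin 4) (Fin 4) F).charpoly
      = X ^ 4 - C (a + b) * X ^ 3 + C (a * b - u) * X ^ 2 + C ((a + b) * u) * X
        - C (a * b * u + v) := by
  have h : charmatrix (!![0, 1, 0, 0; u, 0, 1, 0; 0, 0, a, 1; v, 0, 0, b] :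
      Matrix (Fin 4) (Fin 4) F)
      = !![X, -1, 0, 0; -C u, X, -1, 0; 0, 0, X - C a, -1; -C v, 0, 0, X - C b] := by
    ext i j
    fin_cases i <;> fin_cases j <;> simp
  rw [Matrix.charpoly, h, det_succ_row_zero]
  simp [Fin.sum_univ_succ, det_fin_three, Fin.succAbove]
  ring

theorem four_block_pattern (a b u v : F) (ha : a ≠ 0) (hb : b ≠ 0) (hu : u ≠ 0) (hv : v ≠ 0) :
    ∀ i j, ((!![0, 1, 0, 0; u, 0, 1, 0; 0, 0, a, 1; v, 0, 0, b] : Matrix (Fin 4) (Fin 4) F) i j ≠ 0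
      ↔ P4 i j = true) := by
  intro i j
  fin_cases i <;> fin_cases j <;> simp [P4, ha, hb, hu, hv]

theorem of_params (α a b u v : F) (ha : a ≠ 0) (hb : b ≠ 0) (hu : u ≠ 0) (hv : v ≠ 0)
    (h1 : a + b = 4 * α) (h2 : a * b - u = 6 * α ^ 2) (h3 : (a + b) * u = - (4 * α ^ 3))
    (h4 : a * b * u + v = - α ^ 4) : Real P4 (Multiset.replicate 4 α) := by
  refine ⟨Multiset.card_replicate _ _, _, four_block_pattern a b u v ha hb hu hv, ?_⟩
  rw [four_block, h3, h4, h1, h2, Multiset.map_replicate, Multiset.prod_replicate]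
  simp only [map_mul, map_neg, map_pow, map_ofNat]
  ring

theorem main : S_E4 := by
  classical
  intro F _ _ α h5
  by_cases hα : α = 0
  · subst hα
    refine of_params 0 1 (-1) (-1) (-1) one_ne_zero (neg_ne_zero.2 one_ne_zero) (neg_ne_zero.2 one_ne_zero)
      (neg_ne_zero.2 one_ne_zero) ?_ ?_ ?_ ?_ <;> ring
  by_cases h2 : (2 : F) = 0
  · obtain ⟨s, hs⟩ := Infinite.exists_notMem_finset ({0, α} : Finset F)
    simp only [Finset.mem_insert, Finset.mem_singleton, not_or] at hs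
    obtain ⟨h0, hsα⟩ := hs
    refine of_params α s s (s ^ 2) ((s - α) ^ 4) h0 h0 (pow_ne_zero _ h0) (pow_ne_zero _ (sub_ne_zero.2 hsα)) ?_ ?_ ?_ ?_
    · linear_combination (s - 2 * α) * h2
    · linear_combination (-3 * α ^ 2) * h2
    · linear_combination (s ^ 3 + 2 * α ^ 3) * h2
    · linear_combination (s ^ 4 - 2 * s ^ 3 * α + 3 * s ^ 2 * α ^ 2 - 2 * s * α ^ 3 + α ^ 4) * h2
  · obtain ⟨a, ha⟩ := IsAlgClosed.exists_root (X ^ 2 + C (- (4 * α)) * X + C (5 * α ^ 2) : F[X]) (by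
      have : (X ^ 2 + C (- (4 * α)) * X + C (5 * α ^ 2) : F[X]).degree = 2 := by compute_degree!
      rw [this]; decide)
    have ha' : a ^ 2 + - (4 * α) * a + 5 * α ^ 2 = 0 := by
      have := ha
      simpa [IsRoot] using this
    have hab : a * (4 * α - a) = 5 * α ^ 2 := by linear_combination -ha'
    have h5' : (5 : F) * α ^ 2 ≠ 0 := mul_ne_zero h5 (pow_ne_zero _ hα)
    rw [← hab] at h5'
    refine of_params α a (4 * α - a) (- α ^ 2) (4 * α ^ 4) (left_ne_zero_of_mul h5') (right_ne_zero_of_mul h5')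
      (neg_ne_zero.2 (pow_ne_zero _ hα)) (mul_ne_zero ?_ (pow_ne_zero _ hα)) ?_ ?_ ?_ ?_
    · have : (4 : F) = 2 * 2 := by norm_num
      rw [this]
      exact mul_ne_zero h2 h2
    · ring
    · rw [hab]; ring
    · ring
    · rw [hab]; ring

end Pool.Agent.H89.SP.T.E4
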