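import Pool.Agent.H89.SP.Defs

/-! # SP-E6: six equal eigenvalues in characteristic 5 -/

set_option autoImplicit false

namespace Pool.Agent.H89.SP.T.E6

open Polynomial Matrix

theorem main : S_E6 := by
  intro hR6 F _ _ α h5
  have h2 : (2 : F) ≠ 0 := by
    intro h
    have : (1 : F) = 0 := by linear_combination h5 - 2 * h
    exact one_ne_zero this
  refine ⟨by simp, ?_⟩
  rw [Multiset.map_replicate, Multiset.prod_replicate]
  have hm : ((X - C α) ^ 6 : F[X]).Monic := (monic_X_sub_C α).pow 6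
  have hd : ((X - C α) ^ 6 : F[X]).natDegree = 6 := by
    rw [natDegree_pow, natDegree_X_sub_C]
  by_cases hα : α = 0
  · subst hα
    refine hR6 F _ 1 h2 hm hd one_ne_zero ?_ ?_ ?_
    · simp; norm_num
    · simp
    · simp
  · obtain ⟨s, hs⟩ := IsAlgClosed.exists_pow_nat_eq (-(α ^ 4)) (n := 4) (by norm_num)
    have hα4 : α ^ 4 ≠ 0 := pow_ne_zero 4 hα
    have hs0 : s ≠ 0 := by
      rintro rfl
      apply hα4
      linear_combination hs
    refine hR6 F _ s h2 hm hd hs0 ?_ ?_ ?_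
    · simp only [eval_pow, eval_sub, eval_X, eval_C]
      linear_combination (-12 * s * α) * hs + (-8 * s ^ 3 * α ^ 3) * h5
    · simp only [eval_pow, eval_sub, eval_X, eval_C]
      intro h
      have h1 : α ^ 4 * (α ^ 2 - s ^ 2) = 0 := by
        linear_combination h - (s ^ 2 - 6 * s * α) * hs -
          (3 * s ^ 4 * α ^ 2 - 4 * s ^ 3 * α ^ 3 + 3 * s ^ 2 * α ^ 4) * h5
      have h3 : α ^ 2 - s ^ 2 = 0 := (mul_eq_zero.1 h1).resolve_left hα4
      have h4 : 2 * α ^ 4 = 0 := by linear_combination hs + (α ^ 2 + s ^ 2) * h3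
      exact (mul_ne_zero h2 hα4) h4
    · simp only [eval_pow, eval_sub, eval_X, eval_C]
      intro h
      have h1 : α ^ 4 * s ^ 2 = 0 := by
        linear_combination -h + (s ^ 2 - 6 * s * α) * hs +
          (3 * s ^ 4 * α ^ 2 - 4 * s ^ 3 * α ^ 3 + 3 * s ^ 2 * α ^ 4) * h5
      exact (mul_ne_zero hα4 (pow_ne_zero 2 hs0)) h1

end Pool.Agent.H89.SP.T.E6
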