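import Pool.Agent.H89.SP.Defs

/-! # SP-G6: six eigenvalues in general position -/

set_option autoImplicit false

namespace Pool.Agent.H89.SP.T.G6

open Polynomial Matrix

theorem main : S_G6 := by
  intro hR6 F _ _ t h2 ht
  obtain ⟨hc, hneg, c0, c1, c2, c3, c4, c5, hP, h5, h1, h543, hdisc⟩ := ht
  refine ⟨hc, ?_⟩
  have hm : ((t.map fun a => X - C a).prod : F[X]).Monic :=
    monic_multiset_prod_of_monic _ _ fun a _ => monic_X_sub_C a
  have hd : ((t.map fun a => X - C a).prod : F[X]).natDegree = 6 := by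
    rw [natDegree_multiset_prod_X_sub_C_eq_card, hc]
  have hev : ∀ x : F, ((t.map fun a => X - C a).prod : F[X]).eval x =
      x ^ 6 + c5 * x ^ 5 + c4 * x ^ 4 + c3 * x ^ 3 + c2 * x ^ 2 + c1 * x + c0 := by
    intro x
    rw [hP]
    simp
  have hroot : ∀ x : F, ((t.map fun a => X - C a).prod : F[X]).eval x = 0 → x ∈ t := by
    intro x hx
    rw [eval_multiset_prod, Multiset.map_map, Multiset.prod_eq_zero_iff, Multiset.mem_map] at hx
    obtain ⟨a, ha, hax⟩ := hx
    simp [sub_eq_zero] at hax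
    rw [hax]; exact ha
  -- the value of `s ^ 2`
  obtain ⟨τ, hτ, hτ2⟩ : ∃ τ : F, c5 * τ ^ 2 + c3 * τ + c1 = 0 ∧ τ ^ 2 + c4 * τ + c2 ≠ 0 := by
    obtain ⟨δ, hδ⟩ := IsAlgClosed.exists_pow_nat_eq (c3 ^ 2 - 4 * c5 * c1) (n := 2) (by norm_num)
    have hδ0 : δ ≠ 0 := by
      rintro rfl
      apply hdisc
      linear_combination -hδ
    have e1 : c5 * ((-c3 + δ) / (2 * c5)) ^ 2 + c3 * ((-c3 + δ) / (2 * c5)) + c1 = 0 := by
      field_simp
      linear_combination hδ
    have e2 : c5 * ((-c3 - δ) / (2 * c5)) ^ 2 + c3 * ((-c3 - δ) / (2 * c5)) + c1 = 0 := by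
      field_simp
      linear_combination hδ
    by_contra hcon
    push Not at hcon
    have f1 := hcon _ e1
    have f2 := hcon _ e2
    apply h543
    have f3 : ((-c3 + δ) / (2 * c5) - (-c3 - δ) / (2 * c5)) *
        ((-c3 + δ) / (2 * c5) + (-c3 - δ) / (2 * c5) + c4) = 0 := by
      linear_combination f1 - f2
    have f4 : (-c3 + δ) / (2 * c5) - (-c3 - δ) / (2 * c5) = δ / c5 := by
      field_simp
      ring
    have f5 : (-c3 + δ) / (2 * c5) + (-c3 - δ) / (2 * c5) = -c3 / c5 := by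
      field_simp
      ring
    rw [f4, f5] at f3
    have f6 := (mul_eq_zero.1 f3).resolve_left (div_ne_zero hδ0 h5)
    field_simp at f6
    linear_combination f6
  obtain ⟨s, hs⟩ := IsAlgClosed.exists_pow_nat_eq τ (n := 2) (by norm_num)
  have hτ0 : τ ≠ 0 := by
    rintro rfl
    apply h1
    linear_combination hτ
  have hs0 : s ≠ 0 := by
    rintro rfl
    apply hτ0
    rw [← hs]; ring
  have hss : ((t.map fun a => X - C a).prod : F[X]).eval s =
      ((t.map fun a => X - C a).prod : F[X]).eval (-s) := by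
    rw [hev, hev]
    subst hs
    linear_combination (2 * s) * hτ
  refine hR6 F _ s h2 hm hd hs0 hss ?_ ?_
  · intro h0
    exact hneg s (hroot s h0) (hroot (-s) (hss ▸ h0))
  · intro h
    rw [hev, hev] at h
    apply mul_ne_zero hτ0 hτ2
    subst hs
    linear_combination h - s * hτ

end Pool.Agent.H89.SP.T.G6
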