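import Pool.Agent.H89.SP.Defs

/-! # SP-R4: four general eigenvalues (helper75; adapted from the library file R_seed8/S10028) -/

set_option autoImplicit false

namespace Pool.Agent.H89.SP.T.R4

open Polynomial Matrix Pool.Agent.H89.SP

variable {F : Type} [Field F]

/-- The four by four block with seven nonzero entries. -/
theorem four_block (a b u v : F) :
    (!![0, 1, 0, 0; u, 0, 1, 0; 0, 0, a, 1; v, 0, 0, b] : Matrix (Fin 4) (Fin 4) F).charpoly
      = X ^ 4 - C (a + b) * X ^ 3 + C (a * b - u) * X ^ 2 + C ((a + b) * u) * X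
        - C (a * b * u + v) := by
  have h : charmatrix (!![0, 1, 0, 0; u, 0, 1, 0; 0, 0, a, 1; v, 0, 0, b] :
      Matrix (Fin 4) (Fin 4) F)
      = !![X, -1, 0, 0; -C u, X, -1, 0; 0, 0, X - C a, -1; -C v, 0, 0, X - C b] := by
    ext i j
    fin_cases i <;> fin_cases j <;> simp
  rw [Matrix.charpoly, h, det_succ_row_zero]
  simp [Fin.sum_univ_succ, det_fin_three, Fin.succAbove]
  ring

theorem four_block_pattern (a b u v : F) (ha : a ≠ 0) (hb : b ≠ 0) (hu : u ≠ 0) (hv : v ≠ 0) :
    ∀ i j, ((!![0, 1, 0, 0; u, 0, 1, 0; 0, 0, a, 1; v, 0, 0, b] : Matrix (Fin 4) (Fin 4) F) i j ≠ 0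
      ↔ P4 i j = true) := by
  intro i j
  fin_cases i <;> fin_cases j <;> simp [P4, ha, hb, hu, hv]

theorem main : S_R4 := by
  intro F _ _ x y z w hG
  obtain ⟨hxy, hxz, hxw, hyz, hyw, hzw, h1, h3, h12⟩ := hG
  refine ⟨by simp, ?_⟩
  set e1 := x + y + z + w with he1
  set e2 := x * y + x * z + x * w + y * z + y * w + z * w with he2
  set e3 := x * y * z + x * y * w + x * z * w + y * z * w with he3
  set e4 := x * y * z * w with he4
  set u := -e3 / e1 with hu
  have hu1 : u * e1 = -e3 := by rw [hu]; field_simp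
  have hu0 : u ≠ 0 := div_ne_zero (neg_ne_zero.2 h3) h1
  -- the two loops are the roots of a quadratic
  obtain ⟨a, ha⟩ := IsAlgClosed.exists_root (X ^ 2 + C (-e1) * X + C (e2 + u) : F[X]) (by
    have : (X ^ 2 + C (-e1) * X + C (e2 + u) : F[X]).degree = 2 := by compute_degree!
    rw [this]; decide)
  have ha' : a ^ 2 + (-e1) * a + (e2 + u) = 0 := by
    have := ha
    simpa [IsRoot] using this
  have hab : a * (e1 - a) = e2 + u := by linear_combination -ha'
  have hprod : e2 + u ≠ 0 := by
    intro h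
    apply h12
    have : (e2 + u) * e1 = 0 := by rw [h, zero_mul]
    linear_combination this - hu1
  have ha0 : a ≠ 0 := by
    intro h
    apply hprod
    rw [← hab, h]; ring
  have hb0 : e1 - a ≠ 0 := by
    intro h
    apply hprod
    rw [← hab, h]; ring
  set v := -e4 - (e2 + u) * u with hv
  have hv0 : v ≠ 0 := by
    intro h
    have h' : v * e1 ^ 2 = 0 := by rw [h, zero_mul]
    have h'' : (x + y) * (x + z) * (x + w) * (y + z) * (y + w) * (z + w) = 0 := by
      have h4 : (x + y) * (x + z) * (x + w) * (y + z) * (y + w) * (z + w)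
          = e1 * e2 * e3 - e3 ^ 2 - e1 ^ 2 * e4 := by
        rw [he1, he2, he3, he4]; ring
      rw [h4]
      have h5 : v * e1 ^ 2 = -(e4 * e1 ^ 2) - (e2 * e1 * (u * e1) + (u * e1) ^ 2) := by
        rw [hv]; ring
      rw [h5, hu1] at h'
      linear_combination h'
    simp [hxy, hxz, hxw, hyz, hyw, hzw] at h''
  refine ⟨_, four_block_pattern a (e1 - a) u v ha0 hb0 hu0 hv0, ?_⟩
  rw [four_block]
  have c3 : a + (e1 - a) = e1 := by ring
  have c2 : a * (e1 - a) - u = e2 := by linear_combination hab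
  have c1 : e1 * u = - e3 := by linear_combination hu1
  have c0 : a * (e1 - a) * u + v = - e4 := by
    rw [hab, hv]; ring
  have hR : (({x, y, z, w} : Multiset F).map (fun a => X - C a)).prod =
      (X - C x) * ((X - C y) * ((X - C z) * (X - C w))) := by
    simp
  rw [hR, c3, c2, c1, c0, he1, he2, he3, he4]
  simp only [map_add, map_mul, map_neg]
  ring

end Pool.Agent.H89.SP.T.R4
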