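import Pool.Agent.H89.SP.Defs

/-! # SP-R6: polynomials realized by the pattern `P6` -/

set_option autoImplicit false

namespace Pool.Agent.H89.SP.T.R6

open Polynomial Matrix

theorem det6 {R : Type*} [CommRing R] (x u A B E G v : R) :
    (!![x, -1, 0, 0, 0, 0; -u, x, -1, 0, 0, 0; 0, 0, A, -1, 0, 0; 0, 0, 0, B, -1, 0;
        0, 0, 0, 0, E, -1; -v, 0, 0, 0, 0, G] : Matrix (Fin 6) (Fin 6) R).det =
      (x ^ 2 - u) * A * B * E * G - v := by
  rw [det_succ_row_zero]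
  simp only [Fin.sum_univ_succ]
  simp
  rw [det_succ_row_zero, det_succ_row_zero]
  simp [Fin.sum_univ_succ]
  rw [det_succ_row_zero]
  simp [Fin.sum_univ_succ, det_fin_three]
  rw [det_succ_row_zero]
  simp [Fin.sum_univ_succ, det_fin_three]
  rw [det_succ_row_zero]
  simp [Fin.sum_univ_succ, det_fin_three]
  rw [det_succ_row_zero]
  simp [Fin.sum_univ_succ, det_fin_three, Fin.succAbove]
  ring

theorem six_block {F : Type} [Field F] (a b c d u v : F) :
    (!![0, 1, 0, 0, 0, 0; u, 0, 1, 0, 0, 0; 0, 0, a, 1, 0, 0; 0, 0, 0, b, 1, 0;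
        0, 0, 0, 0, c, 1; v, 0, 0, 0, 0, d] : Matrix (Fin 6) (Fin 6) F).charpoly
      = (X ^ 2 - C u) * (X - C a) * (X - C b) * (X - C c) * (X - C d) - C v := by
  have h : charmatrix (!![0, 1, 0, 0, 0, 0; u, 0, 1, 0, 0, 0; 0, 0, a, 1, 0, 0; 0, 0, 0, b, 1, 0;
        0, 0, 0, 0, c, 1; v, 0, 0, 0, 0, d] : Matrix (Fin 6) (Fin 6) F)
      = !![X, -1, 0, 0, 0, 0; -C u, X, -1, 0, 0, 0; 0, 0, X - C a, -1, 0, 0;
          0, 0, 0, X - C b, -1, 0; 0, 0, 0, 0, X - C c, -1; -C v, 0, 0, 0, 0, X - C d] := by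
    ext i j
    fin_cases i <;> fin_cases j <;> simp
  rw [Matrix.charpoly, h, det6]

theorem six_pattern {F : Type} [Field F] (a b c d u v : F) (ha : a ≠ 0) (hb : b ≠ 0) (hc : c ≠ 0)
    (hd : d ≠ 0) (hu : u ≠ 0) (hv : v ≠ 0) :
    ∀ i j, ((!![0, 1, 0, 0, 0, 0; u, 0, 1, 0, 0, 0; 0, 0, a, 1, 0, 0; 0, 0, 0, b, 1, 0;
        0, 0, 0, 0, c, 1; v, 0, 0, 0, 0, d] : Matrix (Fin 6) (Fin 6) F) i j ≠ 0
      ↔ P6 i j = true) := by
  intro i j
  fin_cases i <;> fin_cases j <;> simp [P6, ha, hb, hc, hd, hu, hv]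

/-- A monic polynomial of degree four over an algebraically closed field. -/
theorem split4 {F : Type} [Field F] [IsAlgClosed F] (Q : F[X]) (hQ : Q.Monic) (h4 : Q.natDegree = 4) :
    ∃ a b c d : F, Q = (X - C a) * (X - C b) * (X - C c) * (X - C d) := by
  have hs := (IsAlgClosed.splits Q)
  have h1 := hs.eq_prod_roots_of_monic hQ
  have h2 : Multiset.card Q.roots = 4 := by
    rw [← h4]; exact hs.natDegree_eq_card_roots.symm
  obtain ⟨a, ha⟩ := Multiset.card_pos_iff_exists_mem.1 (by rw [h2]; norm_num)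
  obtain ⟨t, ht⟩ := Multiset.exists_cons_of_mem ha
  have ht2 : Multiset.card t = 3 := by
    rw [ht, Multiset.card_cons] at h2
    omega
  obtain ⟨b, c, d, hbcd⟩ := Multiset.card_eq_three.1 ht2
  refine ⟨a, b, c, d, ?_⟩
  rw [h1, ht, hbcd]
  simp
  ring

theorem main : S_R6 := by
  intro F _ _ P s h2 hP h6 hs hss hPs hP0
  set R : F[X] := P - C (P.eval s) with hR
  have hRm : R.Monic := by
    apply hP.sub_of_left
    refine (degree_C_le).trans_lt ?_
    rw [degree_eq_natDegree hP.ne_zero, h6]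
    norm_num
  have hRd : R.natDegree = 6 := by rw [hR, natDegree_sub_C, h6]
  have hne : s ≠ -s := by
    intro h
    have : (2 : F) * s = 0 := by linear_combination h
    rcases mul_eq_zero.1 this with h | h
    · exact h2 h
    · exact hs h
  have hd : (X ^ 2 - C (s ^ 2)) ∣ R := by
    have e : (X ^ 2 - C (s ^ 2) : F[X]) = (X - C s) * (X - C (-s)) := by
      simp only [map_neg, map_pow]; ring
    rw [e]
    apply IsCoprime.mul_dvd
    · exact isCoprime_X_sub_C_of_isUnit_sub (by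
        rw [isUnit_iff_ne_zero, sub_ne_zero]; exact hne)
    · rw [dvd_iff_isRoot, IsRoot, hR]; simp
    · rw [dvd_iff_isRoot, IsRoot, hR]; simp [hss]
  obtain ⟨Q, hQ⟩ := hd
  have hm : (X ^ 2 - C (s ^ 2) : F[X]).Monic := monic_X_pow_sub_C _ two_ne_zero
  have hQm : Q.Monic := hm.of_mul_monic_left (hQ ▸ hRm)
  have hQd : Q.natDegree = 4 := by
    have h7 := congrArg natDegree hQ
    rw [hRd, hm.natDegree_mul hQm, natDegree_X_pow_sub_C] at h7
    omega
  obtain ⟨a, b, c, d, hq⟩ := split4 Q hQm hQd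
  have h0 : -s ^ 2 * (a * b * c * d) = P.eval 0 - P.eval s := by
    have h8 := congrArg (eval 0) hQ
    rw [hq, hR] at h8
    simp at h8
    rw [h8]; ring
  have h9 : -s ^ 2 * (a * b * c * d) ≠ 0 := by
    rw [h0, sub_ne_zero]; exact hP0.symm
  have h10 : a * b * c * d ≠ 0 := right_ne_zero_of_mul h9
  have hd0 : d ≠ 0 := right_ne_zero_of_mul h10
  have h11 := left_ne_zero_of_mul h10
  have hc0 : c ≠ 0 := right_ne_zero_of_mul h11
  have h12 := left_ne_zero_of_mul h11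
  refine ⟨_, six_pattern a b c d (s ^ 2) (-(P.eval s)) (left_ne_zero_of_mul h12)
    (right_ne_zero_of_mul h12) hc0 hd0 (pow_ne_zero 2 hs) (neg_ne_zero.2 hPs), ?_⟩
  rw [six_block]
  have h13 : P = R + C (P.eval s) := by rw [hR]; ring
  conv_rhs => rw [h13, hQ, hq]
  rw [map_neg]
  ring

end Pool.Agent.H89.SP.T.R6
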